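import Mathlib

set_option autoImplicit false

/-!
Coding of binary sequences by points of the plane: if two sequences first differ at the level `n`,
the slope between the corresponding points is about `2^n` for even `n` and `2^(-n)` for odd `n`.
-/

open Set Filter Topology

namespace Pool.Agent.Helper77.Coding

noncomputable def term (e : ℕ → ℕ) (x : ℕ → Bool) (n : ℕ) : ℝ :=
  if x n = true then (1 / 2 : ℝ) ^ e n else 0

noncomputable def val (e : ℕ → ℕ) (x : ℕ → Bool) : ℝ := ∑' n, term e x n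

variable {e : ℕ → ℕ}

lemma pow_le (he : ∀ n, e n + 2 ≤ e (n + 1)) (n k : ℕ) :
    (1 / 2 : ℝ) ^ e (k + n) ≤ (1 / 2) ^ e n * (1 / 4) ^ k := by
  induction k with
  | zero => simp
  | succ k ih =>
    have h1 : (1 / 2 : ℝ) ^ e (k + 1 + n) ≤ (1 / 2) ^ (e (k + n) + 2) := by
      apply pow_le_pow_of_le_one (by norm_num) (by norm_num)
      have := he (k + n)
      rwa [show k + 1 + n = k + n + 1 by ring]
    have h2 : (1 / 2 : ℝ) ^ (e (k + n) + 2) = (1 / 2) ^ e (k + n) * (1 / 4) := by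
      rw [pow_add]; norm_num
    rw [pow_succ, ← mul_assoc]
    rw [h2] at h1
    exact h1.trans (mul_le_mul_of_nonneg_right ih (by norm_num))

lemma term_nonneg (x : ℕ → Bool) (n : ℕ) : 0 ≤ term e x n := by
  unfold term; split_ifs <;> positivity

lemma term_le (x : ℕ → Bool) (n : ℕ) : term e x n ≤ (1 / 2 : ℝ) ^ e n := by
  unfold term; split_ifs
  · exact le_rfl
  · positivity

lemma summable_tail (he : ∀ n, e n + 2 ≤ e (n + 1)) (x : ℕ → Bool) (n : ℕ) :
    Summable fun k => term e x (k + n) := by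
  refine Summable.of_nonneg_of_le (fun k => term_nonneg _ _)
    (fun k => (term_le x (k + n)).trans (pow_le he n k)) ?_
  exact (summable_geometric_of_lt_one (by norm_num) (by norm_num)).mul_left _

lemma tail_nonneg (x : ℕ → Bool) (n : ℕ) : 0 ≤ ∑' k, term e x (k + n) :=
  tsum_nonneg fun k => term_nonneg _ _

lemma tail_le (he : ∀ n, e n + 2 ≤ e (n + 1)) (x : ℕ → Bool) (n : ℕ) :
    ∑' k, term e x (k + (n + 1)) ≤ (1 / 3) * (1 / 2 : ℝ) ^ e n := by
  have h1 : ∑' k, term e x (k + (n + 1)) ≤ ∑' k : ℕ, (1 / 2 : ℝ) ^ e (n + 1) * (1 / 4) ^ k :=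
    (summable_tail he x (n + 1)).tsum_le_tsum
      (fun k => (term_le x (k + (n + 1))).trans (pow_le he (n + 1) k))
      ((summable_geometric_of_lt_one (by norm_num) (by norm_num)).mul_left _)
  rw [tsum_mul_left, tsum_geometric_of_lt_one (by norm_num) (by norm_num)] at h1
  have h2 : (1 / 2 : ℝ) ^ e (n + 1) ≤ (1 / 2) ^ (e n + 2) :=
    pow_le_pow_of_le_one (by norm_num) (by norm_num) (he n)
  have h3 : (1 / 2 : ℝ) ^ (e n + 2) = (1 / 2) ^ e n * (1 / 4) := by
    rw [pow_add]; norm_num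
  have h4 : (1 - 1 / 4 : ℝ)⁻¹ = 4 / 3 := by norm_num
  rw [h4] at h1
  rw [h3] at h2
  linarith

lemma val_split (he : ∀ n, e n + 2 ≤ e (n + 1)) (x : ℕ → Bool) (n : ℕ) :
    val e x = ∑ k ∈ Finset.range n, term e x k + term e x n + ∑' k, term e x (k + (n + 1)) := by
  have h0 : Summable (term e x) := by simpa using summable_tail he x 0
  unfold val
  rw [← h0.sum_add_tsum_nat_add (n + 1), Finset.sum_range_succ]

/-- the difference of values when the sequences first differ at `n` -/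
lemma val_diff (he : ∀ n, e n + 2 ≤ e (n + 1)) {x x' : ℕ → Bool} {n : ℕ}
    (h : ∀ k < n, x k = x' k) (hn : x n ≠ x' n) :
    (2 / 3) * (1 / 2 : ℝ) ^ e n ≤ |val e x - val e x'| ∧
      |val e x - val e x'| ≤ (4 / 3) * (1 / 2 : ℝ) ^ e n := by
  have hs : ∑ k ∈ Finset.range n, term e x k = ∑ k ∈ Finset.range n, term e x' k := by
    apply Finset.sum_congr rfl
    intro k hk
    unfold term
    rw [h k (Finset.mem_range.1 hk)]
  have a1 := tail_le he x n
  have a2 := tail_le he x' n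
  have b1 := tail_nonneg (e := e) x (n + 1)
  have b2 := tail_nonneg (e := e) x' (n + 1)
  have hp : 0 < (1 / 2 : ℝ) ^ e n := by positivity
  rw [val_split he x n, val_split he x' n, hs]
  cases h1 : x n <;> cases h2 : x' n
  · rw [h1, h2] at hn; exact absurd rfl hn
  · have t1 : term e x n = 0 := by unfold term; rw [h1]; simp
    have t2 : term e x' n = (1 / 2 : ℝ) ^ e n := by unfold term; rw [h2]; simp
    rw [t1, t2, abs_of_nonpos (by linarith)]
    constructor <;> linarith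
  · have t1 : term e x' n = 0 := by unfold term; rw [h2]; simp
    have t2 : term e x n = (1 / 2 : ℝ) ^ e n := by unfold term; rw [h1]; simp
    rw [t1, t2, abs_of_nonneg (by linarith)]
    constructor <;> linarith
  · rw [h1, h2] at hn; exact absurd rfl hn

/-- points where the difference quotients of `f` are bounded by `m + 1` at distances less than
`1 / (m + 1)` -/
def A (f : ℝ → ℝ) (m : ℕ) : Set ℝ :=
  {t | ∀ s, |s - t| < 1 / ((m : ℝ) + 1) → |f s - f t| ≤ ((m : ℝ) + 1) * |s - t|}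

lemma exists_mem_A {f : ℝ → ℝ} (hf : Differentiable ℝ f) (t : ℝ) : ∃ m, t ∈ A f m := by
  obtain ⟨C, hC⟩ := (hf t).isBigO_sub.bound
  obtain ⟨δ, hδ, h⟩ := Metric.eventually_nhds_iff.1 hC
  obtain ⟨m, hm⟩ := exists_nat_ge (max C (1 / δ))
  refine ⟨m, fun s hs => ?_⟩
  have h1 : C ≤ m := (le_max_left _ _).trans hm
  have h2 : 1 / δ ≤ m := (le_max_right _ _).trans hm
  have h3 : 1 / ((m : ℝ) + 1) ≤ δ := by
    rw [div_le_iff₀ (by positivity)]
    rw [div_le_iff₀ hδ] at h2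
    nlinarith
  have h4 := @h s (by rw [Real.dist_eq]; linarith)
  rw [Real.norm_eq_abs, Real.norm_eq_abs] at h4
  refine h4.trans (mul_le_mul_of_nonneg_right ?_ (abs_nonneg _))
  linarith

/-- two points of the graph over `A f m` whose codes first differ at a level with large slope -/
lemma piece_sep {e e' : ℕ → ℕ} (he : ∀ n, e n + 2 ≤ e (n + 1)) (he' : ∀ n, e' n + 2 ≤ e' (n + 1))
    {f : ℝ → ℝ} {m n : ℕ} (hmn : m + 2 ≤ n) (hen : e n = e' n + n)
    {x x' : ℕ → Bool} (hx : val e x ∈ A f m) (h1 : f (val e x) = val e' x)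
    (h2 : f (val e x') = val e' x') (h : ∀ k < n, x k = x' k) : x n = x' n := by
  by_contra hne
  obtain ⟨-, a2⟩ := val_diff he h hne
  obtain ⟨b1, -⟩ := val_diff he' h hne
  have h2n : ((m : ℝ) + 1) * 4 < 2 * 2 ^ n := by
    have h3 : m + 1 < 2 ^ (m + 1) := Nat.lt_two_pow_self
    have h4 : 2 ^ (m + 2) ≤ 2 ^ n := Nat.pow_le_pow_right (by norm_num) hmn
    have h5 : (m + 1) * 4 < 2 * 2 ^ n := by
      have : 2 ^ (m + 2) = 2 * 2 ^ (m + 1) := by ring
      omega
    exact_mod_cast h5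
  have hpe : (1 / 2 : ℝ) ^ e n * 2 ^ n = (1 / 2 : ℝ) ^ e' n := by
    rw [hen, pow_add, mul_assoc, ← mul_pow]
    norm_num
  have hpe' : (1 / 2 : ℝ) ^ e' n ≤ 1 := pow_le_one₀ (by norm_num) (by norm_num)
  have hpos : 0 < (1 / 2 : ℝ) ^ e n := by positivity
  have hm0 : (0 : ℝ) < (m : ℝ) + 1 := by positivity
  have hlt : |val e x' - val e x| < 1 / ((m : ℝ) + 1) := by
    rw [abs_sub_comm, lt_div_iff₀ hm0]
    calc |val e x - val e x'| * ((m : ℝ) + 1)
        ≤ (4 / 3) * (1 / 2 : ℝ) ^ e n * ((m : ℝ) + 1) := mul_le_mul_of_nonneg_right a2 hm0.le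
      _ = (1 / 3) * (1 / 2 : ℝ) ^ e n * (((m : ℝ) + 1) * 4) := by ring
      _ < (1 / 3) * (1 / 2 : ℝ) ^ e n * (2 * 2 ^ n) := by
          apply mul_lt_mul_of_pos_left h2n; positivity
      _ = (2 / 3) * ((1 / 2 : ℝ) ^ e n * 2 ^ n) := by ring
      _ ≤ 1 := by rw [hpe]; linarith
  have h3 := hx _ hlt
  rw [h1, h2, abs_sub_comm, abs_sub_comm (val e x')] at h3
  have h4 : ((m : ℝ) + 1) * |val e x - val e x'| ≤ ((m : ℝ) + 1) * ((4 / 3) * (1 / 2 : ℝ) ^ e n) :=
    mul_le_mul_of_nonneg_left a2 hm0.le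
  have h5 : ((m : ℝ) + 1) * ((4 / 3) * (1 / 2 : ℝ) ^ e n) =
      (1 / 3) * (1 / 2 : ℝ) ^ e n * (((m : ℝ) + 1) * 4) := by ring
  have h6 : (1 / 3) * (1 / 2 : ℝ) ^ e n * (((m : ℝ) + 1) * 4) <
      (1 / 3) * (1 / 2 : ℝ) ^ e n * (2 * 2 ^ n) := by
    apply mul_lt_mul_of_pos_left h2n; positivity
  have h7 : (1 / 3) * (1 / 2 : ℝ) ^ e n * (2 * 2 ^ n) = (2 / 3) * (1 / 2 : ℝ) ^ e' n := by
    rw [← hpe]; ring
  linarith

/-- the exponents of the abscissa -/
def eX (n : ℕ) : ℕ := if Even n then n * (n + 2) else n * (n + 1)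

/-- the exponents of the ordinate -/
def eY (n : ℕ) : ℕ := if Even n then n * (n + 1) else n * (n + 2)

lemma eX_succ (n : ℕ) : eX n + 2 ≤ eX (n + 1) := by
  unfold eX
  split_ifs <;> nlinarith

lemma eY_succ (n : ℕ) : eY n + 2 ≤ eY (n + 1) := by
  unfold eY
  split_ifs <;> nlinarith

lemma eX_even {n : ℕ} (h : Even n) : eX n = eY n + n := by
  unfold eX eY; rw [if_pos h, if_pos h]; ring

lemma eY_odd {n : ℕ} (h : Odd n) : eY n = eX n + n := by
  have h' : ¬ Even n := Nat.not_even_iff_odd.2 h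
  unfold eX eY; rw [if_neg h', if_neg h']; ring

end Pool.Agent.Helper77.Coding
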