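import Mathlib

set_option autoImplicit false

/-!
One-dimensional Whitney `C¹` extension from a closed set `K` of reals that contains all integers.
-/

open Set Filter Topology

namespace Pool.Agent.Helper77.Whitney1D

/-- the cubic Hermite interpolation on `[a,b]` -/
noncomputable def herm (f f' : ℝ → ℝ) (a b x : ℝ) : ℝ :=
  f a + f' a * (x - a)
    + (f b - f a - f' a * (b - a)) * (3 * ((x - a) / (b - a)) ^ 2 - 2 * ((x - a) / (b - a)) ^ 3)
    + (f' b - f' a) * (b - a) * (((x - a) / (b - a)) ^ 3 - ((x - a) / (b - a)) ^ 2)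

/-- its derivative -/
noncomputable def hermD (f f' : ℝ → ℝ) (a b x : ℝ) : ℝ :=
  f' a
    + (f b - f a - f' a * (b - a)) / (b - a) * (6 * ((x - a) / (b - a)) - 6 * ((x - a) / (b - a)) ^ 2)
    + (f' b - f' a) * (3 * ((x - a) / (b - a)) ^ 2 - 2 * ((x - a) / (b - a)))

lemma herm_hasDerivAt (f f' : ℝ → ℝ) (a b x : ℝ) (hab : a < b) :
    HasDerivAt (herm f f' a b) (hermD f f' a b x) x := by
  have hne : b - a ≠ 0 := by linarith
  have ht : HasDerivAt (fun x : ℝ => (x - a) / (b - a)) (1 / (b - a)) x :=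
    ((hasDerivAt_id x).sub_const a).div_const (b - a)
  have h1 : HasDerivAt (fun x : ℝ => f a + f' a * (x - a)) (f' a) x := by
    have := (((hasDerivAt_id x).sub_const a).const_mul (f' a)).const_add (f a)
    simpa using this
  have h2 := (((ht.pow 2).const_mul 3).sub ((ht.pow 3).const_mul 2)).const_mul
    (f b - f a - f' a * (b - a))
  have h3 := ((ht.pow 3).sub (ht.pow 2)).const_mul ((f' b - f' a) * (b - a))
  have h := (h1.add h2).add h3
  refine h.congr_deriv ?_
  unfold hermD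
  simp only [Nat.add_one_sub_one, pow_one, Nat.cast_ofNat]
  generalize (x - a) / (b - a) = t
  generalize hl : b - a = l at hne
  field_simp
  ring

lemma hermD_continuous (f f' : ℝ → ℝ) (a b : ℝ) : Continuous (hermD f f' a b) := by
  unfold hermD
  fun_prop

lemma hermD_left (f f' : ℝ → ℝ) (a b : ℝ) : hermD f f' a b a = f' a := by
  simp [hermD]

lemma hermD_right (f f' : ℝ → ℝ) (a b : ℝ) (hab : a < b) : hermD f f' a b b = f' b := by
  have hne : b - a ≠ 0 := by linarith
  unfold hermD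
  rw [div_self hne]
  ring

lemma herm_left (f f' : ℝ → ℝ) (a b : ℝ) : herm f f' a b a = f a := by
  simp [herm]

lemma herm_right (f f' : ℝ → ℝ) (a b : ℝ) (hab : a < b) : herm f f' a b b = f b := by
  have hne : b - a ≠ 0 := by linarith
  unfold herm
  rw [div_self hne]
  ring

/-- estimate of the Hermite derivative -/
lemma hermD_sub_le (f f' : ℝ → ℝ) (a b x ε : ℝ) (hab : a < b) (hax : a ≤ x) (hxb : x ≤ b)
    (h1 : |f b - f a - f' a * (b - a)| ≤ ε * (b - a)) (h2 : |f' b - f' a| ≤ 2 * ε) :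
    |hermD f f' a b x - f' a| ≤ 10 * ε := by
  have hpos : 0 < b - a := by linarith
  set t := (x - a) / (b - a) with ht
  have ht0 : 0 ≤ t := div_nonneg (by linarith) hpos.le
  have ht1 : t ≤ 1 := by rw [ht, div_le_one hpos]; linarith
  have e1 : |(f b - f a - f' a * (b - a)) / (b - a)| ≤ ε := by
    rw [abs_div, abs_of_pos hpos, div_le_iff₀ hpos]
    exact h1
  have hε : 0 ≤ ε := le_trans (abs_nonneg _) e1
  have e2 : |6 * t - 6 * t ^ 2| ≤ 6 := by
    rw [abs_le]; constructor <;> nlinarith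
  have e3 : |3 * t ^ 2 - 2 * t| ≤ 2 := by
    rw [abs_le]; constructor <;> nlinarith
  have : hermD f f' a b x - f' a
      = (f b - f a - f' a * (b - a)) / (b - a) * (6 * t - 6 * t ^ 2)
        + (f' b - f' a) * (3 * t ^ 2 - 2 * t) := by
    unfold hermD
    ring
  rw [this]
  calc _ ≤ |(f b - f a - f' a * (b - a)) / (b - a) * (6 * t - 6 * t ^ 2)|
        + |(f' b - f' a) * (3 * t ^ 2 - 2 * t)| := abs_add_le _ _
    _ = |(f b - f a - f' a * (b - a)) / (b - a)| * |6 * t - 6 * t ^ 2|
        + |f' b - f' a| * |3 * t ^ 2 - 2 * t| := by rw [abs_mul, abs_mul]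
    _ ≤ ε * 6 + 2 * ε * 2 := by gcongr
    _ = 10 * ε := by ring

section gaps

variable (K : Set ℝ)

noncomputable def lo (x : ℝ) : ℝ := sSup (K ∩ Iic x)
noncomputable def hi (x : ℝ) : ℝ := sInf (K ∩ Ici x)

variable {K}

variable (hK : IsClosed K) (hZ : ∀ z : ℤ, (z : ℝ) ∈ K)

include hZ in
lemma lo_nonempty (x : ℝ) : (K ∩ Iic x).Nonempty := ⟨⌊x⌋, hZ _, Int.floor_le x⟩

include hZ in
lemma hi_nonempty (x : ℝ) : (K ∩ Ici x).Nonempty := ⟨⌈x⌉, hZ _, Int.le_ceil x⟩

lemma lo_bdd (x : ℝ) : BddAbove (K ∩ Iic x) := ⟨x, fun _ h => h.2⟩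

lemma hi_bdd (x : ℝ) : BddBelow (K ∩ Ici x) := ⟨x, fun _ h => h.2⟩

include hK hZ in
lemma lo_mem (x : ℝ) : lo K x ∈ K ∩ Iic x :=
  (hK.inter isClosed_Iic).csSup_mem (lo_nonempty hZ x) (lo_bdd x)

include hK hZ in
lemma hi_mem (x : ℝ) : hi K x ∈ K ∩ Ici x :=
  (hK.inter isClosed_Ici).csInf_mem (hi_nonempty hZ x) (hi_bdd x)

lemma le_lo {x y : ℝ} (hy : y ∈ K) (hyx : y ≤ x) : y ≤ lo K x := le_csSup (lo_bdd x) ⟨hy, hyx⟩

lemma hi_le {x y : ℝ} (hy : y ∈ K) (hyx : x ≤ y) : hi K x ≤ y := csInf_le (hi_bdd x) ⟨hy, hyx⟩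

include hK hZ in
lemma lo_of_mem {x : ℝ} (hx : x ∈ K) : lo K x = x :=
  le_antisymm (lo_mem hK hZ x).2 (le_lo hx le_rfl)

include hK hZ in
lemma hi_of_mem {x : ℝ} (hx : x ∈ K) : hi K x = x :=
  le_antisymm (hi_le hx le_rfl) (hi_mem hK hZ x).2

include hK hZ in
lemma lo_lt {x : ℝ} (hx : x ∉ K) : lo K x < x :=
  lt_of_le_of_ne (lo_mem hK hZ x).2 (fun h => hx (h ▸ (lo_mem hK hZ x).1))

include hK hZ in
lemma lt_hi {x : ℝ} (hx : x ∉ K) : x < hi K x :=
  lt_of_le_of_ne (hi_mem hK hZ x).2 (fun h => hx (h ▸ (hi_mem hK hZ x).1))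

include hK hZ in
/-- inside a gap `lo` and `hi` are constant -/
lemma lo_hi_eq {a b y : ℝ} (ha : a ∈ K) (hb : b ∈ K) (hgap : ∀ z, a < z → z < b → z ∉ K)
    (hay : a < y) (hyb : y < b) : lo K y = a ∧ hi K y = b := by
  constructor
  · apply le_antisymm
    · by_contra h
      push Not at h
      exact hgap _ h (lt_of_le_of_lt (lo_mem hK hZ y).2 hyb) (lo_mem hK hZ y).1
    · exact le_lo ha hay.le
  · apply le_antisymm
    · exact hi_le hb hyb.le
    · by_contra h
      push Not at h
      exact hgap _ (lt_of_lt_of_le hay (hi_mem hK hZ y).2) h (hi_mem hK hZ y).1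

lemma gap_of_notMem {x : ℝ} :
    ∀ z, lo K x < z → z < hi K x → z ∉ K := by
  intro z hz1 hz2 hzK
  rcases le_total z x with h | h
  · exact absurd (le_lo hzK h) (not_le.2 hz1)
  · exact absurd (hi_le hzK h) (not_le.2 hz2)

end gaps

/-- The local Whitney condition. -/
def WhitneyOn (K : Set ℝ) (f f' : ℝ → ℝ) : Prop :=
  ∀ x₀ ∈ K, ∀ ε > 0, ∃ η > 0, ∀ x ∈ K, ∀ y ∈ K, |x - x₀| < η → |y - x₀| < η →
    |f y - f x - f' x * (y - x)| ≤ ε * |y - x|

lemma WhitneyOn.deriv_close {K : Set ℝ} {f f' : ℝ → ℝ} {ε η x₀ : ℝ}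
    (h : ∀ x ∈ K, ∀ y ∈ K, |x - x₀| < η → |y - x₀| < η →
      |f y - f x - f' x * (y - x)| ≤ ε * |y - x|) (hε : 0 ≤ ε)
    {x y : ℝ} (hx : x ∈ K) (hy : y ∈ K) (hxη : |x - x₀| < η) (hyη : |y - x₀| < η) :
    |f' y - f' x| ≤ 2 * ε := by
  rcases eq_or_ne x y with rfl | hne
  · simp [hε]
  have h1 := h x hx y hy hxη hyη
  have h2 := h y hy x hx hyη hxη
  have hpos : 0 < |y - x| := abs_pos.2 (sub_ne_zero.2 hne.symm)
  have h3 : |(f' y - f' x) * (y - x)| ≤ 2 * ε * |y - x| := by
    have e : (f' y - f' x) * (y - x)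
        = (f y - f x - f' x * (y - x)) + (f x - f y - f' y * (x - y)) := by ring
    rw [e]
    calc _ ≤ |f y - f x - f' x * (y - x)| + |f x - f y - f' y * (x - y)| := abs_add_le _ _
      _ ≤ ε * |y - x| + ε * |x - y| := add_le_add h1 h2
      _ = 2 * ε * |y - x| := by rw [abs_sub_comm x y]; ring
  rw [abs_mul] at h3
  exact le_of_mul_le_mul_right h3 hpos

section main

variable {K : Set ℝ} (hK : IsClosed K) (hZ : ∀ z : ℤ, (z : ℝ) ∈ K) {f f' : ℝ → ℝ}
  (hW : WhitneyOn K f f')

/-- the extension -/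
noncomputable def ext (K : Set ℝ) (f f' : ℝ → ℝ) (x : ℝ) : ℝ := herm f f' (lo K x) (hi K x) x

/-- the derivative of the extension -/
noncomputable def extD (K : Set ℝ) (f f' : ℝ → ℝ) (x : ℝ) : ℝ := hermD f f' (lo K x) (hi K x) x

include hK hZ in
lemma ext_of_mem {x : ℝ} (hx : x ∈ K) : ext K f f' x = f x := by
  unfold ext
  rw [lo_of_mem hK hZ hx, hi_of_mem hK hZ hx, herm_left]

include hK hZ in
lemma extD_of_mem {x : ℝ} (hx : x ∈ K) : extD K f f' x = f' x := by
  unfold extD
  rw [lo_of_mem hK hZ hx, hi_of_mem hK hZ hx, hermD_left]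

include hK hZ hW in
/-- right and left limits of the derivative at points of `K` -/
lemma extD_near {x₀ : ℝ} (hx₀ : x₀ ∈ K) {ε : ℝ} (hε : 0 < ε) :
    ∃ η > 0, ∀ x, |x - x₀| < η → |extD K f f' x - f' x₀| ≤ ε := by
  obtain ⟨η, hη, hη'⟩ := hW x₀ hx₀ (ε / 12) (by positivity)
  -- general estimate for a gap close to `x₀`
  have key : ∀ x, |lo K x - x₀| < η → |hi K x - x₀| < η → |extD K f f' x - f' x₀| ≤ ε := by
    intro x h1 h2
    by_cases hx : x ∈ K
    · rw [extD_of_mem hK hZ hx]
      have h3 : |x - x₀| < η := by rwa [lo_of_mem hK hZ hx] at h1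
      have := WhitneyOn.deriv_close hη' (by positivity) hx₀ hx (by simpa using hη) h3
      linarith
    · have hlo := lo_lt hK hZ hx
      have hhi := lt_hi hK hZ hx
      have hm1 := (lo_mem hK hZ x).1
      have hm2 := (hi_mem hK hZ x).1
      have e1 := hη' _ hm1 _ hm2 h1 h2
      rw [abs_of_pos (by linarith : 0 < hi K x - lo K x)] at e1
      have e2 := WhitneyOn.deriv_close hη' (by positivity) hm1 hm2 h1 h2
      have e3 := hermD_sub_le f f' (lo K x) (hi K x) x (ε / 12) (by linarith) hlo.le hhi.le e1 e2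
      have e4 := WhitneyOn.deriv_close hη' (by positivity) hx₀ hm1 (by simpa using hη) h1
      have e5 : extD K f f' x - f' x₀
          = (hermD f f' (lo K x) (hi K x) x - f' (lo K x)) + (f' (lo K x) - f' x₀) := by
        unfold extD; ring
      rw [e5]
      calc _ ≤ |hermD f f' (lo K x) (hi K x) x - f' (lo K x)| + |f' (lo K x) - f' x₀| :=
            abs_add_le _ _
        _ ≤ 10 * (ε / 12) + 2 * (ε / 12) := add_le_add e3 e4
        _ = ε := by ring
  -- right side
  have right : ∃ η₁ > 0, ∀ x, x₀ ≤ x → x - x₀ < η₁ → |extD K f f' x - f' x₀| ≤ ε := by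
    by_cases hz : ∃ z ∈ K, x₀ < z ∧ z < x₀ + η
    · obtain ⟨z, hzK, hz1, hz2⟩ := hz
      refine ⟨z - x₀, by linarith, fun x hx1 hx2 => key x ?_ ?_⟩
      · have a1 := le_lo hx₀ hx1
        have a2 : lo K x ≤ x := (lo_mem hK hZ x).2
        rw [abs_of_nonneg (by linarith)]
        linarith
      · have a1 : x ≤ hi K x := (hi_mem hK hZ x).2
        have a2 := hi_le (K := K) hzK (by linarith : x ≤ z)
        rw [abs_of_nonneg (by linarith)]
        linarith
    · push Not at hz
      set m := x₀ + η / 2 with hm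
      have hmK : m ∉ K := by
        intro h
        have := hz m h (by linarith)
        linarith
      set b := hi K m with hb
      have hbK : b ∈ K := (hi_mem hK hZ m).1
      have hmb : m < b := lt_hi hK hZ hmK
      have hgap : ∀ z, x₀ < z → z < b → z ∉ K := by
        intro z hz1 hz2 hzK
        rcases le_total z m with h | h
        · have := hz z hzK hz1
          linarith
        · have := hi_le hzK h
          linarith
      have hcont := (hermD_continuous f f' x₀ b).tendsto x₀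
      rw [hermD_left] at hcont
      obtain ⟨η₂, hη₂, h₂⟩ := Metric.tendsto_nhds_nhds.1 hcont ε hε
      refine ⟨min η₂ (b - x₀), lt_min hη₂ (by linarith), fun x hx1 hx2 => ?_⟩
      rcases hx1.eq_or_lt with rfl | hx1
      · rw [extD_of_mem hK hZ hx₀]; simp [hε.le]
      · have hxb : x < b := by
          have := lt_of_lt_of_le hx2 (min_le_right _ _)
          linarith
        obtain ⟨e1, e2⟩ := lo_hi_eq hK hZ hx₀ hbK hgap hx1 hxb
        unfold extD
        rw [e1, e2]
        have hd : dist x x₀ < η₂ := by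
          rw [Real.dist_eq, abs_of_pos (by linarith)]
          exact lt_of_lt_of_le hx2 (min_le_left _ _)
        have := h₂ hd
        rw [Real.dist_eq] at this
        exact this.le
  have left : ∃ η₁ > 0, ∀ x, x ≤ x₀ → x₀ - x < η₁ → |extD K f f' x - f' x₀| ≤ ε := by
    by_cases hz : ∃ z ∈ K, z < x₀ ∧ x₀ - η < z
    · obtain ⟨z, hzK, hz1, hz2⟩ := hz
      refine ⟨x₀ - z, by linarith, fun x hx1 hx2 => key x ?_ ?_⟩
      · have a1 := le_lo (K := K) hzK (by linarith : z ≤ x)
        have a2 : lo K x ≤ x := (lo_mem hK hZ x).2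
        rw [abs_of_nonpos (by linarith)]
        linarith
      · have a1 : x ≤ hi K x := (hi_mem hK hZ x).2
        have a2 := hi_le hx₀ hx1
        rw [abs_of_nonpos (by linarith)]
        linarith
    · push Not at hz
      set m := x₀ - η / 2 with hm
      have hmK : m ∉ K := by
        intro h
        have := hz m h (by linarith)
        linarith
      set a := lo K m with ha
      have haK : a ∈ K := (lo_mem hK hZ m).1
      have ham : a < m := lo_lt hK hZ hmK
      have hgap : ∀ z, a < z → z < x₀ → z ∉ K := by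
        intro z hz1 hz2 hzK
        rcases le_total z m with h | h
        · have := le_lo hzK h
          linarith
        · have := hz z hzK hz2
          linarith
      have hcont := (hermD_continuous f f' a x₀).tendsto x₀
      rw [hermD_right f f' a x₀ (by linarith)] at hcont
      obtain ⟨η₂, hη₂, h₂⟩ := Metric.tendsto_nhds_nhds.1 hcont ε hε
      refine ⟨min η₂ (x₀ - a), lt_min hη₂ (by linarith), fun x hx1 hx2 => ?_⟩
      rcases hx1.eq_or_lt with rfl | hx1
      · rw [extD_of_mem hK hZ hx₀]; simp [hε.le]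
      · have hxb : a < x := by
          have := lt_of_lt_of_le hx2 (min_le_right _ _)
          linarith
        obtain ⟨e1, e2⟩ := lo_hi_eq hK hZ haK hx₀ hgap hxb hx1
        unfold extD
        rw [e1, e2]
        have hd : dist x x₀ < η₂ := by
          rw [Real.dist_eq, abs_of_neg (by linarith)]
          have := lt_of_lt_of_le hx2 (min_le_left _ _)
          linarith
        have := h₂ hd
        rw [Real.dist_eq] at this
        exact this.le
  obtain ⟨η₁, h1, h1'⟩ := right
  obtain ⟨η₂, h2, h2'⟩ := left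
  refine ⟨min η₁ η₂, lt_min h1 h2, fun x hx => ?_⟩
  rcases le_total x₀ x with h | h
  · apply h1' x h
    rw [abs_of_nonneg (by linarith)] at hx
    exact lt_of_lt_of_le hx (min_le_left _ _)
  · apply h2' x h
    rw [abs_of_nonpos (by linarith)] at hx
    have := lt_of_lt_of_le hx (min_le_right _ _)
    linarith

include hK hZ in
/-- off `K` the extension is locally a polynomial -/
lemma ext_eventuallyEq {x : ℝ} (hx : x ∉ K) :
    ext K f f' =ᶠ[𝓝 x] herm f f' (lo K x) (hi K x) ∧
    extD K f f' =ᶠ[𝓝 x] hermD f f' (lo K x) (hi K x) := by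
  have h : Ioo (lo K x) (hi K x) ∈ 𝓝 x := Ioo_mem_nhds (lo_lt hK hZ hx) (lt_hi hK hZ hx)
  have hy : ∀ y ∈ Ioo (lo K x) (hi K x), lo K y = lo K x ∧ hi K y = hi K x := by
    intro y hy
    exact lo_hi_eq hK hZ (lo_mem hK hZ x).1 (hi_mem hK hZ x).1
      (fun z h1 h2 => gap_of_notMem z h1 h2) hy.1 hy.2
  constructor
  · filter_upwards [h] with y hy'
    unfold ext
    rw [(hy y hy').1, (hy y hy').2]
  · filter_upwards [h] with y hy'
    unfold extD
    rw [(hy y hy').1, (hy y hy').2]

include hK hZ in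
lemma ext_hasDerivAt_off {x : ℝ} (hx : x ∉ K) : HasDerivAt (ext K f f') (extD K f f' x) x := by
  have h := herm_hasDerivAt f f' (lo K x) (hi K x) x ((lo_lt hK hZ hx).trans (lt_hi hK hZ hx))
  exact h.congr_of_eventuallyEq (ext_eventuallyEq hK hZ hx).1

include hK hZ hW in
lemma extD_continuous : Continuous (extD K f f') := by
  rw [continuous_iff_continuousAt]
  intro x
  by_cases hx : x ∈ K
  · rw [Metric.continuousAt_iff]
    intro ε hε
    obtain ⟨η, hη, h⟩ := extD_near hK hZ hW hx (half_pos hε)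
    refine ⟨η, hη, fun {y} hy => ?_⟩
    rw [Real.dist_eq] at hy ⊢
    have := h y hy
    rw [extD_of_mem hK hZ hx]
    linarith
  · exact (hermD_continuous f f' (lo K x) (hi K x)).continuousAt.congr
      (ext_eventuallyEq hK hZ hx).2.symm

include hK hZ in
/-- The extension on the closure of a gap. -/
lemma ext_gap_eq {a b y : ℝ} (ha : a ∈ K) (hb : b ∈ K) (hab : a < b)
    (hgap : ∀ z, a < z → z < b → z ∉ K) (hy : y ∈ Icc a b) :
    ext K f f' y = herm f f' a b y ∧ extD K f f' y = hermD f f' a b y := by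
  rcases hy.1.eq_or_lt with rfl | h1
  · rw [ext_of_mem hK hZ ha, extD_of_mem hK hZ ha, herm_left, hermD_left]
    exact ⟨rfl, rfl⟩
  rcases hy.2.eq_or_lt with rfl | h2
  · rw [ext_of_mem hK hZ hb, extD_of_mem hK hZ hb, herm_right _ _ _ _ hab,
      hermD_right _ _ _ _ hab]
    exact ⟨rfl, rfl⟩
  obtain ⟨e1, e2⟩ := lo_hi_eq hK hZ ha hb hgap h1 h2
  unfold ext extD
  rw [e1, e2]
  exact ⟨rfl, rfl⟩

include hK hZ in
/-- mean value inside a gap -/
lemma ext_mvt {a b u v : ℝ} (ha : a ∈ K) (hb : b ∈ K) (hab : a < b)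
    (hgap : ∀ z, a < z → z < b → z ∉ K) (hau : a ≤ u) (huv : u < v) (hvb : v ≤ b) :
    ∃ c ∈ Ioo u v, ext K f f' v - ext K f f' u = extD K f f' c * (v - u) := by
  obtain ⟨c, hc, hc'⟩ := exists_hasDerivAt_eq_slope (herm f f' a b) (hermD f f' a b) huv
    (fun x _ => (herm_hasDerivAt f f' a b x hab).continuousAt.continuousWithinAt)
    (fun x _ => herm_hasDerivAt f f' a b x hab)
  refine ⟨c, hc, ?_⟩
  have e1 := (ext_gap_eq (f := f) (f' := f') hK hZ ha hb hab hgap
    (⟨hau, by linarith⟩ : u ∈ Icc a b)).1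
  have e2 := (ext_gap_eq (f := f) (f' := f') hK hZ ha hb hab hgap
    (⟨by linarith, hvb⟩ : v ∈ Icc a b)).1
  have e3 := (ext_gap_eq (f := f) (f' := f') hK hZ ha hb hab hgap
    (⟨by linarith [hc.1], by linarith [hc.2]⟩ : c ∈ Icc a b)).2
  rw [e1, e2, e3, hc']
  have : v - u ≠ 0 := by linarith
  field_simp

include hK hZ hW in
lemma ext_hasDerivAt_on {x₀ : ℝ} (hx₀ : x₀ ∈ K) : HasDerivAt (ext K f f') (f' x₀) x₀ := by
  rw [hasDerivAt_iff_isLittleO, Asymptotics.isLittleO_iff]
  intro ε hε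
  obtain ⟨η, hη, h1⟩ := hW x₀ hx₀ ε hε
  obtain ⟨η', hη', h2⟩ := extD_near hK hZ hW hx₀ hε
  rw [Metric.eventually_nhds_iff]
  refine ⟨min η η', lt_min hη hη', fun {y} hy => ?_⟩
  rw [Real.dist_eq] at hy
  have hy1 : |y - x₀| < η := lt_of_lt_of_le hy (min_le_left _ _)
  have hy2 : |y - x₀| < η' := lt_of_lt_of_le hy (min_le_right _ _)
  rw [ext_of_mem hK hZ hx₀, smul_eq_mul, Real.norm_eq_abs, Real.norm_eq_abs]
  by_cases hyK : y ∈ K
  · rw [ext_of_mem hK hZ hyK]
    have := h1 x₀ hx₀ y hyK (by simpa using hη) hy1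
    rwa [mul_comm (f' x₀)] at this
  · have hlo := lo_lt hK hZ hyK
    have hhi := lt_hi hK hZ hyK
    have hm1 := (lo_mem hK hZ y).1
    have hm2 := (hi_mem hK hZ y).1
    have hgap : ∀ z, lo K y < z → z < hi K y → z ∉ K :=
      fun z h1 h2 => gap_of_notMem z h1 h2
    rcases lt_or_ge x₀ y with hlt | hge
    · have a1 : x₀ ≤ lo K y := le_lo hx₀ hlt.le
      rw [abs_of_pos (by linarith)] at hy1 hy2
      obtain ⟨c, hc, hc'⟩ := ext_mvt (f := f) (f' := f') hK hZ hm1 hm2 (hlo.trans hhi) hgap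
        le_rfl hlo hhi.le
      rw [ext_of_mem hK hZ hm1] at hc'
      have b1 := h1 x₀ hx₀ _ hm1 (by simpa using hη)
        (by rw [abs_of_nonneg (by linarith)]; linarith)
      rw [abs_of_nonneg (by linarith : 0 ≤ lo K y - x₀)] at b1
      have b2 := h2 c (by rw [abs_of_nonneg (by linarith [hc.1])]; linarith [hc.2])
      have e : ext K f f' y - f x₀ - (y - x₀) * f' x₀
          = (f (lo K y) - f x₀ - f' x₀ * (lo K y - x₀))
            + (extD K f f' c - f' x₀) * (y - lo K y) := by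
        have : ext K f f' y = f (lo K y) + extD K f f' c * (y - lo K y) := by linarith
        rw [this]; ring
      rw [e, abs_of_pos (by linarith : 0 < y - x₀)]
      calc _ ≤ |f (lo K y) - f x₀ - f' x₀ * (lo K y - x₀)|
            + |(extD K f f' c - f' x₀) * (y - lo K y)| := abs_add_le _ _
        _ ≤ ε * (lo K y - x₀) + ε * (y - lo K y) := by
            apply add_le_add b1
            rw [abs_mul, abs_of_pos (by linarith : 0 < y - lo K y)]
            exact mul_le_mul_of_nonneg_right b2 (by linarith)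
        _ = ε * (y - x₀) := by ring
    · have hne : y ≠ x₀ := fun h => hyK (h ▸ hx₀)
      have hlt : y < x₀ := lt_of_le_of_ne hge hne
      have a1 : hi K y ≤ x₀ := hi_le hx₀ hlt.le
      rw [abs_of_neg (by linarith)] at hy1 hy2
      obtain ⟨c, hc, hc'⟩ := ext_mvt (f := f) (f' := f') hK hZ hm1 hm2 (hlo.trans hhi) hgap
        hlo.le hhi le_rfl
      rw [ext_of_mem hK hZ hm2] at hc'
      have b1 := h1 x₀ hx₀ _ hm2 (by simpa using hη)
        (by rw [abs_of_nonpos (by linarith)]; linarith)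
      rw [abs_of_nonpos (by linarith : hi K y - x₀ ≤ 0)] at b1
      have b2 := h2 c (by rw [abs_of_nonpos (by linarith [hc.2])]; linarith [hc.1])
      have e : ext K f f' y - f x₀ - (y - x₀) * f' x₀
          = (f (hi K y) - f x₀ - f' x₀ * (hi K y - x₀))
            + (-(extD K f f' c - f' x₀) * (hi K y - y)) := by
        have : ext K f f' y = f (hi K y) - extD K f f' c * (hi K y - y) := by linarith
        rw [this]; ring
      rw [e, abs_of_neg (by linarith : y - x₀ < 0)]
      calc _ ≤ |f (hi K y) - f x₀ - f' x₀ * (hi K y - x₀)|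
            + |-(extD K f f' c - f' x₀) * (hi K y - y)| := abs_add_le _ _
        _ ≤ ε * (-(hi K y - x₀)) + ε * (hi K y - y) := by
            apply add_le_add b1
            rw [abs_mul, abs_neg, abs_of_pos (by linarith : 0 < hi K y - y)]
            exact mul_le_mul_of_nonneg_right b2 (by linarith)
        _ = ε * (-(y - x₀)) := by ring

include hK hZ hW in
/-- **One-dimensional Whitney extension** (for closed sets containing the integers). -/
theorem exists_contDiff_extension :
    ∃ G : ℝ → ℝ, ContDiff ℝ 1 G ∧ ∀ x ∈ K, G x = f x := by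
  refine ⟨ext K f f', ?_, fun x hx => ext_of_mem hK hZ hx⟩
  have hd : ∀ x, HasDerivAt (ext K f f') (extD K f f' x) x := by
    intro x
    by_cases hx : x ∈ K
    · rw [extD_of_mem hK hZ hx]
      exact ext_hasDerivAt_on hK hZ hW hx
    · exact ext_hasDerivAt_off hK hZ hx
  rw [contDiff_one_iff_deriv]
  refine ⟨fun x => (hd x).differentiableAt, ?_⟩
  have : deriv (ext K f f') = extD K f f' := funext fun x => (hd x).deriv
  rw [this]
  exact extD_continuous hK hZ hW

end main

end Pool.Agent.Helper77.Whitney1D
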