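import Mathlib
import Pool.Agent.Helper77.Whitney1D

set_option autoImplicit false

/-!
Pieces of a differentiable function which extend to `C¹` functions.
-/

open Set Filter Topology

namespace Pool.Agent.Helper77.CoverC1

open Pool.Agent.Helper77.Whitney1D

/-- points at which the differentiability of `f` has modulus `δ` -/
def piece (f : ℝ → ℝ) (δ : ℕ → ℕ) : Set ℝ :=
  {x | ∀ n : ℕ, ∀ y z : ℝ, |y - x| < (1 / 2) ^ (δ n) → |z - x| < (1 / 2) ^ (δ n) →
    |(f y - f x) * (z - x) - (f z - f x) * (y - x)| ≤ (1 / 2) ^ n * |y - x| * |z - x|}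

lemma piece_closed {f : ℝ → ℝ} (hf : Continuous f) (δ : ℕ → ℕ) : IsClosed (piece f δ) := by
  have : piece f δ = ⋂ (n : ℕ) (y : ℝ) (z : ℝ),
      ({x | (1 / 2) ^ (δ n) ≤ |y - x|} ∪ ({x | (1 / 2) ^ (δ n) ≤ |z - x|} ∪
        {x | |(f y - f x) * (z - x) - (f z - f x) * (y - x)| ≤ (1 / 2) ^ n * |y - x| * |z - x|})) := by
    ext x
    simp only [piece, Set.mem_ofPred_eq, mem_iInter, mem_union]
    constructor
    · intro h n y z
      by_cases h1 : |y - x| < (1 / 2) ^ (δ n)
      · by_cases h2 : |z - x| < (1 / 2) ^ (δ n)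
        · exact Or.inr (Or.inr (h n y z h1 h2))
        · exact Or.inr (Or.inl (not_lt.1 h2))
      · exact Or.inl (not_lt.1 h1)
    · intro h n y z h1 h2
      rcases h n y z with h | h | h
      · exact absurd h (not_le.2 h1)
      · exact absurd h (not_le.2 h2)
      · exact h
  rw [this]
  refine isClosed_iInter fun n => isClosed_iInter fun y => isClosed_iInter fun z => ?_
  refine (isClosed_le (by fun_prop) (by fun_prop)).union
    ((isClosed_le (by fun_prop) (by fun_prop)).union (isClosed_le (by fun_prop) (by fun_prop)))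

lemma piece_mono {f : ℝ → ℝ} {δ δ' : ℕ → ℕ} (h : ∀ n, δ n ≤ δ' n) : piece f δ ⊆ piece f δ' := by
  intro x hx n y z hy hz
  have : ((1 : ℝ) / 2) ^ (δ' n) ≤ (1 / 2) ^ (δ n) :=
    pow_le_pow_of_le_one (by norm_num) (by norm_num) (h n)
  exact hx n y z (hy.trans_le this) (hz.trans_le this)

lemma piece_deriv {f : ℝ → ℝ} (hf : Differentiable ℝ f) {δ : ℕ → ℕ} {x : ℝ} (hx : x ∈ piece f δ)
    (n : ℕ) {y : ℝ} (hy : |y - x| < (1 / 2) ^ (δ n)) :
    |f y - f x - deriv f x * (y - x)| ≤ (1 / 2) ^ n * |y - x| := by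
  have hd : Tendsto (slope f x) (𝓝[≠] x) (𝓝 (deriv f x)) :=
    hasDerivAt_iff_tendsto_slope.1 (hf x).hasDerivAt
  have hlim : Tendsto (fun z => |f y - f x - slope f x z * (y - x)|) (𝓝[≠] x)
      (𝓝 |f y - f x - deriv f x * (y - x)|) :=
    (tendsto_const_nhds.sub (hd.mul_const _)).abs
  refine le_of_tendsto hlim ?_
  have hev : ∀ᶠ z in 𝓝[≠] x, |z - x| < (1 / 2) ^ (δ n) := by
    apply mem_nhdsWithin_of_mem_nhds
    have := Metric.ball_mem_nhds x (ε := (1 / 2 : ℝ) ^ (δ n)) (by positivity)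
    filter_upwards [this] with z hz
    rwa [Metric.mem_ball, Real.dist_eq] at hz
  filter_upwards [hev, self_mem_nhdsWithin] with z hz hne
  have hne' : z - x ≠ 0 := sub_ne_zero.2 hne
  have hpos : 0 < |z - x| := abs_pos.2 hne'
  have h := hx n y z hy hz
  have e : (f y - f x) * (z - x) - (f z - f x) * (y - x)
      = (f y - f x - slope f x z * (y - x)) * (z - x) := by
    rw [slope_def_field]
    field_simp
  rw [e, abs_mul] at h
  exact le_of_mul_le_mul_right h hpos

/-- every point lies in a piece -/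
lemma exists_piece {f : ℝ → ℝ} (hf : Differentiable ℝ f) (x : ℝ) : ∃ δ : ℕ → ℕ, x ∈ piece f δ := by
  have key : ∀ n : ℕ, ∃ m : ℕ, ∀ y : ℝ, |y - x| < (1 / 2) ^ m →
      |f y - f x - deriv f x * (y - x)| ≤ (1 / 2) ^ (n + 1) * |y - x| := by
    intro n
    have h := (hf x).hasDerivAt
    rw [hasDerivAt_iff_isLittleO, Asymptotics.isLittleO_iff] at h
    have h2 := @h ((1 / 2) ^ (n + 1)) (by positivity)
    rw [Metric.eventually_nhds_iff] at h2
    obtain ⟨ε, hε, h3⟩ := h2
    obtain ⟨m, hm⟩ := exists_pow_lt_of_lt_one hε (by norm_num : (1 / 2 : ℝ) < 1)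
    refine ⟨m, fun y hy => ?_⟩
    have := @h3 y (by rw [Real.dist_eq]; exact hy.trans hm)
    simpa [Real.norm_eq_abs, mul_comm] using this
  choose m hm using key
  refine ⟨m, fun n y z hy hz => ?_⟩
  have h1 := hm n y hy
  have h2 := hm n z hz
  have e : (f y - f x) * (z - x) - (f z - f x) * (y - x)
      = (f y - f x - deriv f x * (y - x)) * (z - x)
        - (f z - f x - deriv f x * (z - x)) * (y - x) := by ring
  rw [e]
  calc _ ≤ |(f y - f x - deriv f x * (y - x)) * (z - x)|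
        + |(f z - f x - deriv f x * (z - x)) * (y - x)| := abs_sub _ _
    _ = |f y - f x - deriv f x * (y - x)| * |z - x|
        + |f z - f x - deriv f x * (z - x)| * |y - x| := by rw [abs_mul, abs_mul]
    _ ≤ ((1 / 2) ^ (n + 1) * |y - x|) * |z - x| + ((1 / 2) ^ (n + 1) * |z - x|) * |y - x| :=
        add_le_add (mul_le_mul_of_nonneg_right h1 (abs_nonneg _))
          (mul_le_mul_of_nonneg_right h2 (abs_nonneg _))
    _ = (1 / 2) ^ n * |y - x| * |z - x| := by ring

/-- integers are isolated from the other integers, also seen from a real point -/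
lemma exists_ball_int (x₀ : ℝ) : ∃ η > 0, ∀ z : ℤ, |(z : ℝ) - x₀| < η → (z : ℝ) = x₀ := by
  by_cases h : x₀ ∈ Set.range (fun z : ℤ => (z : ℝ))
  · obtain ⟨k, rfl⟩ := h
    refine ⟨1, one_pos, fun z hz => ?_⟩
    have h1 : |z - k| < 1 := by
      have : (|((z - k : ℤ) : ℝ)|) < 1 := by push_cast; exact hz
      rw [← Int.cast_abs] at this
      exact_mod_cast this
    have h2 : z - k = 0 := Int.abs_lt_one_iff.1 h1
    have : z = k := by omega
    simp [this]
  · have hc : IsClosed (Set.range (fun z : ℤ => (z : ℝ))) :=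
      Int.isClosedEmbedding_coe_real.isClosed_range
    have := hc.isOpen_compl.mem_nhds h
    rw [Metric.mem_nhds_iff] at this
    obtain ⟨η, hη, hb⟩ := this
    refine ⟨η, hη, fun z hz => ?_⟩
    exfalso
    have hmem : (z : ℝ) ∈ Metric.ball x₀ η := by rw [Metric.mem_ball, Real.dist_eq]; exact hz
    exact hb hmem ⟨z, rfl⟩

lemma whitney_piece {f : ℝ → ℝ} (hf : Differentiable ℝ f) (δ : ℕ → ℕ) :
    WhitneyOn (piece f δ ∪ Set.range (fun z : ℤ => (z : ℝ))) f (deriv f) := by
  intro x₀ hx₀ ε hε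
  obtain ⟨η₁, hη₁, hint⟩ := exists_ball_int x₀
  by_cases h : x₀ ∈ piece f δ
  · obtain ⟨n, hn⟩ := exists_pow_lt_of_lt_one hε (by norm_num : (1 / 2 : ℝ) < 1)
    have hp : (0 : ℝ) < (1 / 2) ^ (δ n) := by positivity
    refine ⟨min η₁ ((1 / 2) ^ (δ n) / 2), lt_min hη₁ (by positivity), fun x hx y hy hxη hyη => ?_⟩
    have hxp : x ∈ piece f δ := by
      rcases hx with hx | ⟨z, rfl⟩
      · exact hx
      · have := hint z (hxη.trans_le (min_le_left _ _))
        simpa [this] using h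
    have hlt : |y - x| < (1 / 2) ^ (δ n) := by
      have h1 := hxη.trans_le (min_le_right _ _)
      have h2 := hyη.trans_le (min_le_right _ _)
      calc |y - x| = |(y - x₀) - (x - x₀)| := by congr 1; ring
        _ ≤ |y - x₀| + |x - x₀| := abs_sub _ _
        _ < (1 / 2) ^ (δ n) := by linarith
    exact (piece_deriv hf hxp n hlt).trans (mul_le_mul_of_nonneg_right hn.le (abs_nonneg _))
  · have hc := (piece_closed hf.continuous δ).isOpen_compl.mem_nhds h
    rw [Metric.mem_nhds_iff] at hc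
    obtain ⟨η₂, hη₂, hb⟩ := hc
    refine ⟨min η₁ η₂, lt_min hη₁ hη₂, fun x hx y hy hxη hyη => ?_⟩
    have aux : ∀ u ∈ piece f δ ∪ Set.range (fun z : ℤ => (z : ℝ)), |u - x₀| < min η₁ η₂ →
        u = x₀ := by
      intro u hu huη
      rcases hu with hu | ⟨z, rfl⟩
      · exfalso
        have hmem : u ∈ Metric.ball x₀ η₂ := by
          rw [Metric.mem_ball, Real.dist_eq]; exact huη.trans_le (min_le_right _ _)
        exact hb hmem hu
      · exact hint z (huη.trans_le (min_le_left _ _))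
    rw [aux x hx hxη, aux y hy hyη]
    simp

/-- a `C¹` function agreeing with `f` on the piece -/
lemma exists_C1_of_piece {f : ℝ → ℝ} (hf : Differentiable ℝ f) (δ : ℕ → ℕ) :
    ∃ G : ℝ → ℝ, ContDiff ℝ 1 G ∧ ∀ x ∈ piece f δ, G x = f x := by
  have hK : IsClosed (piece f δ ∪ Set.range (fun z : ℤ => (z : ℝ))) :=
    (piece_closed hf.continuous δ).union Int.isClosedEmbedding_coe_real.isClosed_range
  obtain ⟨G, hG, h⟩ := exists_contDiff_extension hK (fun z => Or.inr ⟨z, rfl⟩) (whitney_piece hf δ)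
  exact ⟨G, hG, fun x hx => h x (Or.inl hx)⟩

end Pool.Agent.Helper77.CoverC1
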