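import Mathlib

set_option autoImplicit false

/-!
A `C¹` function passes through the points of an eventually bounded set of sequences only.
-/

open Set Filter Topology

namespace Pool.Agent.Helper77.DomLemma

/-- the first `k` values of `a` -/
def pre (a : ℕ → ℕ) (k : ℕ) : List ℕ := (List.range k).map a

lemma pre_length (a : ℕ → ℕ) (k : ℕ) : (pre a k).length = k := by simp [pre]

lemma pre_succ (a : ℕ → ℕ) (k : ℕ) : pre a (k + 1) = pre a k ++ [a k] := by
  simp [pre, List.range_succ]

/-- a sequence with the given initial values -/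
def extd (s : List ℕ) : ℕ → ℕ := fun i => s.getD i 0

lemma extd_pre (a : ℕ → ℕ) (k i : ℕ) (hi : i < k) : extd (pre a k) i = a i := by
  simp [extd, pre, List.getD, hi]

/-- finite sets of lists with bounded last entries -/
def lev (N : List ℕ → ℕ) (s : List ℕ) : ℕ → Finset (List ℕ)
  | 0 => {s}
  | n + 1 => (lev N s n).biUnion fun t => (Finset.range (N t + 1)).image fun v => t ++ [v]

lemma pre_mem_lev (N : List ℕ → ℕ) (a : ℕ → ℕ) (k : ℕ) (h : ∀ j ≥ k, a j ≤ N (pre a j)) (n : ℕ) :
    pre a (k + n) ∈ lev N (pre a k) n := by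
  induction n with
  | zero => simp [lev]
  | succ n ih =>
    rw [lev, Finset.mem_biUnion]
    refine ⟨_, ih, ?_⟩
    rw [Finset.mem_image]
    refine ⟨a (k + n), ?_, ?_⟩
    · rw [Finset.mem_range]
      exact Nat.lt_succ_of_le (h (k + n) (by omega))
    · rw [← add_assoc, pre_succ]

/-- the sequences with relatively bounded values are eventually bounded by one sequence -/
lemma exists_bound (N : List ℕ → ℕ) : ∃ b : ℕ → ℕ, ∀ a : ℕ → ℕ,
    (∃ k, ∀ j ≥ k, a j ≤ N (pre a j)) → ∀ᶠ n in atTop, a n ≤ b n := by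
  refine ⟨fun m => (Finset.range (m + 1)).sup fun c =>
    ((Encodable.decode (α := List ℕ) c).elim 0 fun s => (lev N s (m - s.length)).sup N), ?_⟩
  rintro a ⟨k, hk⟩
  filter_upwards [eventually_ge_atTop (max k (Encodable.encode (pre a k)))] with n hn
  have hkn : k ≤ n := le_trans (le_max_left _ _) hn
  have hen : Encodable.encode (pre a k) ≤ n := le_trans (le_max_right _ _) hn
  calc a n ≤ N (pre a n) := hk n hkn
    _ ≤ (lev N (pre a k) (n - k)).sup N := by
        apply Finset.le_sup (f := N)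
        have := pre_mem_lev N a k hk (n - k)
        rwa [Nat.add_sub_cancel' hkn] at this
    _ = (Encodable.decode (α := List ℕ) (Encodable.encode (pre a k))).elim 0
          fun s => (lev N s (n - s.length)).sup N := by
        rw [Encodable.encodek]
        simp [pre_length]
    _ ≤ _ := Finset.le_sup (f := fun c => (Encodable.decode (α := List ℕ) c).elim 0
          fun s => (lev N s (n - s.length)).sup N) (Finset.mem_range.2 (Nat.lt_succ_of_le hen))

/-- abstract version of the bounding lemma -/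
theorem bound_of_C1 (X Y : (ℕ → ℕ) → ℝ) (q r : (ℕ → ℕ) → ℕ → ℝ) (d : ℕ → ℝ) (C : ℝ)
    (hq : ∀ a a' : ℕ → ℕ, ∀ k, (∀ i < k, a i = a' i) → q a k = q a' k)
    (hr : ∀ a a' : ℕ → ℕ, ∀ k, (∀ i < k, a i = a' i) → r a k = r a' k)
    (h1 : ∀ a k, 0 < X a - q a k ∧ X a - q a k ≤ C * (1 / 2) ^ (a k))
    (h1' : ∀ a k, |Y a - r a k| ≤ C * (1 / 2) ^ (a k))
    (h2 : ∀ a k, |Y a - r a k - d k * (X a - q a k)| ≤ C * (1 / 2) ^ (a k) * (X a - q a k))
    (h3 : ∀ a k j, k < j → |q a j - q a k| ≤ C * (1 / 2) ^ (a k))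
    (h4 : ∀ k, ∃ ε > 0, ∀ j > k, ε ≤ |d j - d k|)
    (g : ℝ → ℝ) (hg : ContDiff ℝ 1 g) :
    ∃ b : ℕ → ℕ, ∀ a, g (X a) = Y a → ∀ᶠ n in atTop, a n ≤ b n := by
  have hgd : Differentiable ℝ g := hg.differentiable (by norm_num)
  have hgc : Continuous (deriv g) := hg.continuous_deriv (by norm_num)
  -- smallness of `C / 2^n`
  have small : ∀ ε > 0, ∃ N : ℕ, ∀ n ≥ N, C * (1 / 2) ^ n < ε := by
    intro ε hε
    have h : Tendsto (fun n : ℕ => C * (1 / 2 : ℝ) ^ n) atTop (𝓝 (C * 0)) :=
      (tendsto_pow_atTop_nhds_zero_of_lt_one (by norm_num) (by norm_num)).const_mul C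
    rw [mul_zero] at h
    exact eventually_atTop.1 (h.eventually (gt_mem_nhds hε))
  choose ε hε hε' using h4
  have key : ∀ s : List ℕ, ∃ N : ℕ, ∀ a k, pre a k = s → g (X a) = Y a → N ≤ a k →
      deriv g (q a k) = d k ∧ ∀ j > k, |deriv g (q a j) - d k| < ε k := by
    intro s
    set a0 := extd s with ha0
    set k := s.length with hk
    -- (i)
    have c1 : ∃ N : ℕ, ∀ a, (∀ i < k, a i = a0 i) → g (X a) = Y a → N ≤ a k →
        g (q a0 k) = r a0 k := by
      by_cases h : g (q a0 k) = r a0 k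
      · exact ⟨0, fun _ _ _ _ => h⟩
      have hpos : 0 < |g (q a0 k) - r a0 k| := abs_pos.2 (sub_ne_zero.2 h)
      obtain ⟨δ, hδ, hδ'⟩ := Metric.continuousAt_iff.1 (hgd (q a0 k)).continuousAt _ (half_pos hpos)
      obtain ⟨N, hN⟩ := small (min δ (|g (q a0 k) - r a0 k| / 2)) (lt_min hδ (half_pos hpos))
      refine ⟨N, fun a ha hga hNa => ?_⟩
      exfalso
      have e1 : q a k = q a0 k := hq a a0 k ha
      have e2 : r a k = r a0 k := hr a a0 k ha
      have s1 := hN _ hNa
      have b1 := h1 a k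
      have b2 := h1' a k
      rw [e1] at b1
      rw [e2] at b2
      have b3 := @hδ' (X a) (by
        rw [Real.dist_eq, abs_of_pos b1.1]
        exact lt_of_le_of_lt b1.2 (s1.trans_le (min_le_left _ _)))
      rw [Real.dist_eq, hga] at b3
      have b4 : |Y a - r a0 k| < |g (q a0 k) - r a0 k| / 2 :=
        lt_of_le_of_lt b2 (s1.trans_le (min_le_right _ _))
      have b5 : |g (q a0 k) - r a0 k| ≤ |Y a - g (q a0 k)| + |Y a - r a0 k| := by
        have : g (q a0 k) - r a0 k = (Y a - r a0 k) - (Y a - g (q a0 k)) := by ring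
        rw [this]
        have := abs_sub (Y a - r a0 k) (Y a - g (q a0 k))
        linarith
      linarith
    -- (ii)
    have c2 : ∃ N : ℕ, ∀ a, (∀ i < k, a i = a0 i) → g (X a) = Y a → N ≤ a k →
        g (q a0 k) = r a0 k → deriv g (q a0 k) = d k := by
      by_cases h : deriv g (q a0 k) = d k
      · exact ⟨0, fun _ _ _ _ _ => h⟩
      have hpos : 0 < |deriv g (q a0 k) - d k| := abs_pos.2 (sub_ne_zero.2 h)
      have hD := (hgd (q a0 k)).hasDerivAt
      rw [hasDerivAt_iff_isLittleO, Asymptotics.isLittleO_iff] at hD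
      have hD2 := @hD (|deriv g (q a0 k) - d k| / 2) (half_pos hpos)
      rw [Metric.eventually_nhds_iff] at hD2
      obtain ⟨δ, hδ, hδ'⟩ := hD2
      obtain ⟨N, hN⟩ := small (min δ (|deriv g (q a0 k) - d k| / 2)) (lt_min hδ (half_pos hpos))
      refine ⟨N, fun a ha hga hNa hgr => ?_⟩
      exfalso
      have e1 : q a k = q a0 k := hq a a0 k ha
      have e2 : r a k = r a0 k := hr a a0 k ha
      have s1 := hN _ hNa
      have b1 := h1 a k
      have b2 := h2 a k
      rw [e1] at b1
      rw [e1, e2] at b2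
      have b3 := @hδ' (X a) (by
        rw [Real.dist_eq, abs_of_pos b1.1]
        exact lt_of_le_of_lt b1.2 (s1.trans_le (min_le_left _ _)))
      rw [hga, hgr, smul_eq_mul, Real.norm_eq_abs, Real.norm_eq_abs, abs_of_pos b1.1] at b3
      have b4 : C * (1 / 2) ^ (a k) * (X a - q a0 k)
          < |deriv g (q a0 k) - d k| / 2 * (X a - q a0 k) :=
        mul_lt_mul_of_pos_right (s1.trans_le (min_le_right _ _)) b1.1
      have b5 : |deriv g (q a0 k) - d k| * (X a - q a0 k)
          ≤ |Y a - r a0 k - (X a - q a0 k) * deriv g (q a0 k)|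
            + |Y a - r a0 k - d k * (X a - q a0 k)| := by
        have e : (deriv g (q a0 k) - d k) * (X a - q a0 k)
            = (Y a - r a0 k - d k * (X a - q a0 k))
              - (Y a - r a0 k - (X a - q a0 k) * deriv g (q a0 k)) := by ring
        have e' : |deriv g (q a0 k) - d k| * (X a - q a0 k)
            = |(deriv g (q a0 k) - d k) * (X a - q a0 k)| := by
          rw [abs_mul, abs_of_pos b1.1]
        rw [e', e]
        have := abs_sub (Y a - r a0 k - d k * (X a - q a0 k))
          (Y a - r a0 k - (X a - q a0 k) * deriv g (q a0 k))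
        linarith
      linarith
    -- (iii)
    have c3 : ∃ N : ℕ, ∀ a, (∀ i < k, a i = a0 i) → N ≤ a k →
        deriv g (q a0 k) = d k → ∀ j > k, |deriv g (q a j) - d k| < ε k := by
      obtain ⟨δ, hδ, hδ'⟩ := Metric.continuousAt_iff.1 (hgc.continuousAt (x := q a0 k)) _ (hε k)
      obtain ⟨N, hN⟩ := small δ hδ
      refine ⟨N, fun a ha hNa hd j hj => ?_⟩
      have e1 : q a k = q a0 k := hq a a0 k ha
      have b := h3 a k j hj
      rw [e1] at b
      have := @hδ' (q a j) (by rw [Real.dist_eq]; exact lt_of_le_of_lt b (hN _ hNa))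
      rwa [Real.dist_eq, hd] at this
    obtain ⟨N1, hN1⟩ := c1
    obtain ⟨N2, hN2⟩ := c2
    obtain ⟨N3, hN3⟩ := c3
    refine ⟨max N1 (max N2 N3), fun a k' hpre hga hNa => ?_⟩
    have hk' : k' = k := by
      rw [hk, ← hpre, pre_length]
    subst hk'
    have hag : ∀ i < k, a i = a0 i := fun i hi => by
      rw [ha0, ← hpre, extd_pre a k i hi]
    have g1 := hN1 a hag hga (le_trans (le_max_left _ _) hNa)
    have g2 := hN2 a hag hga (le_trans (le_trans (le_max_left _ _) (le_max_right _ _)) hNa) g1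
    have g3 := hN3 a hag (le_trans (le_trans (le_max_right _ _) (le_max_right _ _)) hNa) g2
    refine ⟨?_, g3⟩
    rw [hq a a0 k hag]
    exact g2
  choose N hN using key
  obtain ⟨b, hb⟩ := exists_bound N
  refine ⟨b, fun a hga => hb a ?_⟩
  by_cases hbig : ∃ k, N (pre a k) ≤ a k
  · obtain ⟨k, hk⟩ := hbig
    refine ⟨k + 1, fun j hj => ?_⟩
    by_contra hcon
    push Not at hcon
    have u1 := hN _ a k rfl hga hk
    have u2 := hN _ a j rfl hga hcon.le
    have u3 := u1.2 j (by omega)
    rw [u2.1] at u3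
    have u4 := hε' k j (by omega)
    linarith
  · push Not at hbig
    exact ⟨0, fun j _ => (hbig j).le⟩

end Pool.Agent.Helper77.DomLemma
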