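import Mathlib
import Pool.Agent.Helper77.DomLemma

set_option autoImplicit false

/-!
The points `(X a, Y a)` and the bounding lemma for `C¹` functions and their reflections.
-/

open Set Filter Topology

namespace Pool.Agent.Helper77.DomSeq

open Pool.Agent.Helper77.DomLemma

/-- exponents -/
def ex (a : ℕ → ℕ) (k : ℕ) : ℕ := a k + 1 + 2 * ∑ j ∈ Finset.range k, (a j + 1)

noncomputable def w (a : ℕ → ℕ) (k : ℕ) : ℝ := (1 / 2) ^ (ex a k)

noncomputable def sl (k : ℕ) : ℝ := 1 + (1 / 2) ^ k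

noncomputable def X (a : ℕ → ℕ) : ℝ := ∑' k, w a k

noncomputable def Y (a : ℕ → ℕ) : ℝ := ∑' k, sl k * w a k

noncomputable def q (a : ℕ → ℕ) (k : ℕ) : ℝ := ∑ j ∈ Finset.range k, w a j

noncomputable def r (a : ℕ → ℕ) (k : ℕ) : ℝ := ∑ j ∈ Finset.range k, sl j * w a j

lemma ex_congr {a a' : ℕ → ℕ} {k : ℕ} (h : ∀ i ≤ k, a i = a' i) : ex a k = ex a' k := by
  unfold ex
  rw [h k le_rfl]
  congr 2
  exact Finset.sum_congr rfl fun j hj => by rw [h j (Finset.mem_range.1 hj).le]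

lemma w_congr {a a' : ℕ → ℕ} {k : ℕ} (h : ∀ i ≤ k, a i = a' i) : w a k = w a' k := by
  unfold w; rw [ex_congr h]

lemma q_congr (a a' : ℕ → ℕ) (k : ℕ) (h : ∀ i < k, a i = a' i) : q a k = q a' k :=
  Finset.sum_congr rfl fun j hj => w_congr fun i hi =>
    h i (lt_of_le_of_lt hi (Finset.mem_range.1 hj))

lemma r_congr (a a' : ℕ → ℕ) (k : ℕ) (h : ∀ i < k, a i = a' i) : r a k = r a' k :=
  Finset.sum_congr rfl fun j hj => by
    rw [w_congr (a := a) (a' := a') fun i hi => h i (lt_of_le_of_lt hi (Finset.mem_range.1 hj))]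

lemma w_pos (a : ℕ → ℕ) (k : ℕ) : 0 < w a k := by unfold w; positivity

lemma sl_ge (k : ℕ) : 1 ≤ sl k := by
  unfold sl
  have : (0 : ℝ) < (1 / 2) ^ k := by positivity
  linarith

lemma sl_le (k : ℕ) : sl k ≤ 2 := by
  unfold sl
  have : ((1 : ℝ) / 2) ^ k ≤ 1 := pow_le_one₀ (by norm_num) (by norm_num)
  linarith

lemma w_le (a : ℕ → ℕ) (k : ℕ) : w a k ≤ (1 / 2) ^ (a k + 1) :=
  pow_le_pow_of_le_one (by norm_num) (by norm_num) (by unfold ex; omega)

lemma w_succ_le (a : ℕ → ℕ) (k : ℕ) : w a (k + 1) ≤ w a k * (1 / 2) ^ (a k + 2) := by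
  unfold w
  rw [← pow_add]
  apply pow_le_pow_of_le_one (by norm_num) (by norm_num)
  unfold ex
  rw [Finset.sum_range_succ]
  omega

lemma w_add_le (a : ℕ → ℕ) (k i : ℕ) : w a (i + k) ≤ w a k * (1 / 4) ^ i := by
  induction i with
  | zero => simp
  | succ i ih =>
    have h1 : w a (i + 1 + k) ≤ w a (i + k) * (1 / 2) ^ (a (i + k) + 2) := by
      have := w_succ_le a (i + k)
      rwa [show i + k + 1 = i + 1 + k by ring] at this
    have h2 : ((1 : ℝ) / 2) ^ (a (i + k) + 2) ≤ (1 / 2) ^ 2 :=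
      pow_le_pow_of_le_one (by norm_num) (by norm_num) (by omega)
    have h3 : w a (i + k) * (1 / 2) ^ (a (i + k) + 2) ≤ w a (i + k) * (1 / 2) ^ 2 :=
      mul_le_mul_of_nonneg_left h2 (w_pos _ _).le
    have h4 : w a (i + k) * (1 / 2 : ℝ) ^ 2 ≤ w a k * (1 / 4) ^ i * (1 / 2) ^ 2 :=
      mul_le_mul_of_nonneg_right ih (by norm_num)
    calc w a (i + 1 + k) ≤ w a k * (1 / 4) ^ i * (1 / 2) ^ 2 := h1.trans (h3.trans h4)
      _ = w a k * (1 / 4) ^ (i + 1) := by ring

lemma summable_tail (a : ℕ → ℕ) (k : ℕ) : Summable fun i => w a (i + k) := by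
  refine Summable.of_nonneg_of_le (fun i => (w_pos _ _).le) (fun i => w_add_le a k i) ?_
  exact (summable_geometric_of_lt_one (by norm_num) (by norm_num)).mul_left _

lemma summable_w (a : ℕ → ℕ) : Summable (w a) := by
  simpa using summable_tail a 0

lemma summable_slw_tail (a : ℕ → ℕ) (k : ℕ) : Summable fun i => sl (i + k) * w a (i + k) := by
  refine Summable.of_nonneg_of_le
    (fun i => mul_nonneg (by linarith [sl_ge (i + k)]) (w_pos _ _).le) (fun i => ?_)
    ((summable_tail a k).mul_left 2)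
  exact mul_le_mul_of_nonneg_right (sl_le _) (w_pos _ _).le

lemma summable_slw (a : ℕ → ℕ) : Summable fun i => sl i * w a i := by
  simpa using summable_slw_tail a 0

noncomputable def T (a : ℕ → ℕ) (k : ℕ) : ℝ := ∑' i, w a (i + k)

noncomputable def S (a : ℕ → ℕ) (k : ℕ) : ℝ := ∑' i, sl (i + k) * w a (i + k)

lemma X_sub_q (a : ℕ → ℕ) (k : ℕ) : X a - q a k = T a k := by
  unfold X q T
  rw [← (summable_w a).sum_add_tsum_nat_add k]
  ring

lemma Y_sub_r (a : ℕ → ℕ) (k : ℕ) : Y a - r a k = S a k := by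
  unfold Y r S
  rw [← (summable_slw a).sum_add_tsum_nat_add k]
  ring

lemma T_succ (a : ℕ → ℕ) (k : ℕ) : T a k = w a k + T a (k + 1) := by
  have h1 := X_sub_q a k
  have h2 := X_sub_q a (k + 1)
  have h3 : q a (k + 1) = q a k + w a k := by unfold q; rw [Finset.sum_range_succ]
  linarith

lemma S_succ (a : ℕ → ℕ) (k : ℕ) : S a k = sl k * w a k + S a (k + 1) := by
  have h1 := Y_sub_r a k
  have h2 := Y_sub_r a (k + 1)
  have h3 : r a (k + 1) = r a k + sl k * w a k := by unfold r; rw [Finset.sum_range_succ]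
  linarith

lemma T_nonneg (a : ℕ → ℕ) (k : ℕ) : 0 ≤ T a k := tsum_nonneg fun i => (w_pos _ _).le

lemma T_pos (a : ℕ → ℕ) (k : ℕ) : 0 < T a k := by
  rw [T_succ]
  linarith [w_pos a k, T_nonneg a (k + 1)]

lemma T_le (a : ℕ → ℕ) (k : ℕ) : T a k ≤ 2 * w a k := by
  have h1 : T a k ≤ ∑' i : ℕ, w a k * (1 / 4) ^ i :=
    (summable_tail a k).tsum_le_tsum (fun i => w_add_le a k i)
      ((summable_geometric_of_lt_one (by norm_num) (by norm_num)).mul_left _)
  rw [tsum_mul_left, tsum_geometric_of_lt_one (by norm_num) (by norm_num)] at h1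
  have : (1 - 1 / 4 : ℝ)⁻¹ = 4 / 3 := by norm_num
  rw [this] at h1
  nlinarith [w_pos a k]

lemma T_le_S (a : ℕ → ℕ) (k : ℕ) : T a k ≤ S a k :=
  (summable_tail a k).tsum_le_tsum
    (fun i => le_mul_of_one_le_left (w_pos _ _).le (sl_ge _)) (summable_slw_tail a k)

lemma S_le (a : ℕ → ℕ) (k : ℕ) : S a k ≤ 2 * T a k := by
  unfold T
  rw [← tsum_mul_left]
  exact (summable_slw_tail a k).tsum_le_tsum
    (fun i => mul_le_mul_of_nonneg_right (sl_le _) (w_pos _ _).le) ((summable_tail a k).mul_left 2)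

lemma T_le' (a : ℕ → ℕ) (k : ℕ) : T a k ≤ (1 / 2) ^ (a k) := by
  have h1 := T_le a k
  have h2 := w_le a k
  have : (2 : ℝ) * (1 / 2) ^ (a k + 1) = (1 / 2) ^ (a k) := by rw [pow_succ]; ring
  linarith

/-- the tail after `k` is much smaller than the `k`-th weight -/
lemma T_succ_le (a : ℕ → ℕ) (k : ℕ) : 2 * T a (k + 1) ≤ (1 / 2) ^ (a k) * w a k := by
  have h1 := T_le a (k + 1)
  have h2 := w_succ_le a k
  have : (4 : ℝ) * (w a k * (1 / 2) ^ (a k + 2)) = (1 / 2) ^ (a k) * w a k := by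
    rw [pow_add]; ring
  linarith

lemma slope_est (a : ℕ → ℕ) (k : ℕ) : |S a k - sl k * T a k| ≤ (1 / 2) ^ (a k) * T a k := by
  have e : S a k - sl k * T a k = S a (k + 1) - sl k * T a (k + 1) := by
    rw [S_succ a k, T_succ a k]; ring
  rw [e]
  have h0 := T_nonneg a (k + 1)
  have h1 := T_le_S a (k + 1)
  have h2 := S_le a (k + 1)
  have h3 : sl k * T a (k + 1) ≤ 2 * T a (k + 1) := mul_le_mul_of_nonneg_right (sl_le k) h0
  have h4 : 0 ≤ sl k * T a (k + 1) := mul_nonneg (by linarith [sl_ge k]) h0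
  have h5 : |S a (k + 1) - sl k * T a (k + 1)| ≤ 2 * T a (k + 1) := by
    rw [abs_le]; constructor <;> linarith
  have h6 := T_succ_le a k
  have h7 : w a k ≤ T a k := by rw [T_succ]; linarith
  have h8 : (1 / 2 : ℝ) ^ (a k) * w a k ≤ (1 / 2) ^ (a k) * T a k :=
    mul_le_mul_of_nonneg_left h7 (by positivity)
  linarith

lemma q_mono (a : ℕ → ℕ) : Monotone (q a) := by
  apply monotone_nat_of_le_succ
  intro n
  unfold q
  rw [Finset.sum_range_succ]
  linarith [w_pos a n]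

lemma r_mono (a : ℕ → ℕ) : Monotone (r a) := by
  apply monotone_nat_of_le_succ
  intro n
  unfold r
  rw [Finset.sum_range_succ]
  have := mul_pos (by linarith [sl_ge n] : 0 < sl n) (w_pos a n)
  linarith

lemma sl_sep (k j : ℕ) (h : k < j) : (1 / 2 : ℝ) ^ (k + 1) ≤ sl k - sl j := by
  unfold sl
  have : ((1 : ℝ) / 2) ^ j ≤ (1 / 2) ^ (k + 1) :=
    pow_le_pow_of_le_one (by norm_num) (by norm_num) (by omega)
  have e : (1 / 2 : ℝ) ^ k = 2 * (1 / 2) ^ (k + 1) := by rw [pow_succ]; ring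
  linarith

/-- `C¹` graphs over the horizontal axis -/
theorem bound_graph (g : ℝ → ℝ) (hg : ContDiff ℝ 1 g) :
    ∃ b : ℕ → ℕ, ∀ a, g (X a) = Y a → ∀ᶠ n in atTop, a n ≤ b n := by
  apply bound_of_C1 X Y q r sl 2 q_congr r_congr _ _ _ _ _ g hg
  · intro a k
    rw [X_sub_q]
    refine ⟨T_pos a k, (T_le' a k).trans ?_⟩
    have : (0 : ℝ) < (1 / 2) ^ (a k) := by positivity
    linarith
  · intro a k
    rw [Y_sub_r, abs_of_nonneg (le_trans (T_nonneg a k) (T_le_S a k))]
    linarith [S_le a k, T_le' a k]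
  · intro a k
    rw [Y_sub_r, X_sub_q]
    refine (slope_est a k).trans ?_
    have := mul_nonneg (by positivity : (0 : ℝ) ≤ (1 / 2) ^ (a k)) (T_nonneg a k)
    linarith
  · intro a k j hkj
    have h1 := q_mono a hkj.le
    rw [abs_of_nonneg (by linarith)]
    have h2 := X_sub_q a k
    have h3 := X_sub_q a j
    have h4 := T_nonneg a j
    have h5 := T_le' a k
    have : (0 : ℝ) < (1 / 2) ^ (a k) := by positivity
    linarith
  · intro k
    refine ⟨(1 / 2) ^ (k + 1), by positivity, fun j hj => ?_⟩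
    rw [abs_sub_comm]
    exact (sl_sep k j hj).trans (le_abs_self _)

/-- reflections of `C¹` graphs -/
theorem bound_reflection (g : ℝ → ℝ) (hg : ContDiff ℝ 1 g) :
    ∃ b : ℕ → ℕ, ∀ a, g (Y a) = X a → ∀ᶠ n in atTop, a n ≤ b n := by
  apply bound_of_C1 Y X r q (fun k => 1 / sl k) 2 r_congr q_congr _ _ _ _ _ g hg
  · intro a k
    rw [Y_sub_r]
    refine ⟨lt_of_lt_of_le (T_pos a k) (T_le_S a k), ?_⟩
    linarith [S_le a k, T_le' a k]
  · intro a k
    rw [X_sub_q, abs_of_nonneg (T_nonneg a k)]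
    have : (0 : ℝ) < (1 / 2) ^ (a k) := by positivity
    linarith [T_le' a k]
  · intro a k
    rw [Y_sub_r, X_sub_q]
    have hs := sl_ge k
    have hs0 : 0 < sl k := by linarith
    have e : T a k - 1 / sl k * S a k = -((1 / sl k) * (S a k - sl k * T a k)) := by
      field_simp
      ring
    rw [e, abs_neg, abs_mul, abs_of_pos (by positivity)]
    have h1 := slope_est a k
    have h2 : 1 / sl k ≤ 1 := by
      rw [div_le_one hs0]; exact hs
    have h3 : 1 / sl k * |S a k - sl k * T a k| ≤ |S a k - sl k * T a k| :=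
      mul_le_of_le_one_left (abs_nonneg _) h2
    have h4 : (1 / 2 : ℝ) ^ (a k) * T a k ≤ (1 / 2) ^ (a k) * S a k :=
      mul_le_mul_of_nonneg_left (T_le_S a k) (by positivity)
    have h5 : 0 ≤ (1 / 2 : ℝ) ^ (a k) * T a k := mul_nonneg (by positivity) (T_nonneg a k)
    linarith
  · intro a k j hkj
    have h1 := r_mono a hkj.le
    rw [abs_of_nonneg (by linarith)]
    have h2 := Y_sub_r a k
    have h3 := Y_sub_r a j
    have h4 := T_nonneg a j
    have h4' := T_le_S a j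
    have h5 := T_le' a k
    have h6 := S_le a k
    linarith
  · intro k
    refine ⟨(1 / 2) ^ (k + 1) / 4, by positivity, fun j hj => ?_⟩
    have hk := sl_ge k
    have hj1 := sl_ge j
    have hk2 := sl_le k
    have hj2 := sl_le j
    have h := sl_sep k j hj
    have e : 1 / sl j - 1 / sl k = (sl k - sl j) / (sl j * sl k) := by
      have : sl j ≠ 0 := by linarith
      have : sl k ≠ 0 := by linarith
      field_simp
    have hp : 0 < (1 / 2 : ℝ) ^ (k + 1) := by positivity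
    rw [e, abs_of_nonneg (div_nonneg (by linarith) (by nlinarith))]
    apply div_le_div₀ (by linarith) h (by nlinarith) (by nlinarith)

end Pool.Agent.Helper77.DomSeq
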