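import Mathlib

set_option autoImplicit false

/-!
An evasion argument: fewer than `𝔡` sets of binary sequences, each of which predicts its members
at all large even levels or at all large odd levels, do not cover the space of binary sequences.
-/

open Set Filter Topology Cardinal

namespace Pool.Agent.Helper77.Evade

/-- the binary sequence with ones exactly at the places `2 g(i)` and `2 g(i) + 1 + 2 y(i)` -/
noncomputable def pt (g : ℕ → ℕ) (y : ℕ → Bool) : ℕ → Bool := fun n =>
  @decide (∃ i, n = 2 * g i ∨ n = 2 * g i + 1 + 2 * (y i).toNat) (Classical.propDecidable _)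

lemma pt_true {g : ℕ → ℕ} {y : ℕ → Bool} {n : ℕ} :
    pt g y n = true ↔ ∃ i, n = 2 * g i ∨ n = 2 * g i + 1 + 2 * (y i).toNat :=
  @decide_eq_true_iff _ (Classical.propDecidable _)

lemma pt_false {g : ℕ → ℕ} {y : ℕ → Bool} {n : ℕ} :
    pt g y n = false ↔ ¬ ∃ i, n = 2 * g i ∨ n = 2 * g i + 1 + 2 * (y i).toNat := by
  rw [← pt_true, Bool.not_eq_true]

lemma gap {g : ℕ → ℕ} (hg : ∀ i, g i + 2 ≤ g (i + 1)) {i j : ℕ} (h : i < j) :
    g i + 2 ≤ g j := by
  have hm : Monotone g := monotone_nat_of_le_succ fun n => by have := hg n; omega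
  exact (hg i).trans (hm h)

lemma toNat_le (b : Bool) : b.toNat ≤ 1 := by cases b <;> simp

/-- a set predicted at even levels `≥ n₀` is bounded in terms of finite information -/
lemma exists_bound (T : Set (ℕ → Bool)) (n₀ : ℕ)
    (hT : ∀ x ∈ T, ∀ x' ∈ T, ∀ n, n₀ ≤ n → Even n → (∀ k < n, x k = x' k) → x n = x' n) :
    ∃ F : ℕ → ℕ, Monotone F ∧ ∀ q, n₀ ≤ q → ∀ p, q ≤ p → Even p →
      (∃ x ∈ T, (∀ n, q ≤ n → n < p → x n = false) ∧ x p = true) → p ≤ F q := by
  have hfin : ∀ q, ∃ B : ℕ, n₀ ≤ q → ∀ p, q ≤ p → Even p →
      (∃ x ∈ T, (∀ n, q ≤ n → n < p → x n = false) ∧ x p = true) → p ≤ B := by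
    intro q
    by_cases hq : n₀ ≤ q
    · set P : Set ℕ := {p | q ≤ p ∧ Even p ∧
        ∃ x ∈ T, (∀ n, q ≤ n → n < p → x n = false) ∧ x p = true} with hP
      have hch : ∀ p : P, ∃ x ∈ T, (∀ n, q ≤ n → n < p.1 → x n = false) ∧ x p.1 = true :=
        fun p => p.2.2.2
      choose x hxT hx0 hx1 using hch
      have hinj : Function.Injective (fun p : P => fun i : Fin q => x p i) := by
        intro p p' hpp
        have hr : ∀ k < q, x p k = x p' k := fun k hk => congrFun hpp ⟨k, hk⟩
        by_contra hne
        have hne' : p.1 ≠ p'.1 := fun h => hne (Subtype.ext h)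
        have key : ∀ p p' : P, (∀ k < q, x p k = x p' k) → p.1 < p'.1 → False := by
          intro p p' hr hlt
          have h1 := hT (x p) (hxT p) (x p') (hxT p') p.1 (hq.trans p.2.1) p.2.2.1 (by
            intro k hk
            rcases lt_or_ge k q with hkq | hkq
            · exact hr k hkq
            · rw [hx0 p k hkq hk, hx0 p' k hkq (hk.trans hlt)])
          rw [hx1 p, hx0 p' p.1 p.2.1 hlt] at h1
          exact Bool.noConfusion h1
        rcases lt_or_gt_of_ne hne' with h | h
        · exact key p p' hr h
        · exact key p' p (fun k hk => (hr k hk).symm) h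
      have hPf' : Finite P := Finite.of_injective _ hinj
      have hPf : P.Finite := P.toFinite
      obtain ⟨B, hB⟩ := hPf.bddAbove
      exact ⟨B, fun _ p h1 h2 h3 => hB ⟨h1, h2, h3⟩⟩
    · exact ⟨0, fun h => absurd h hq⟩
  choose B hB using hfin
  refine ⟨fun q => ∑ i ∈ Finset.range (q + 1), B i, ?_, ?_⟩
  · apply monotone_nat_of_le_succ
    intro n
    rw [Finset.sum_range_succ _ (n + 1)]
    omega
  · intro q hq p h1 h2 h3
    refine (hB q hq p h1 h2 h3).trans ?_
    exact Finset.single_le_sum (f := B) (fun _ _ => Nat.zero_le _)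
      (Finset.mem_range.2 (Nat.lt_succ_self q))

theorem exists_outside {ι : Type} (Te To : ι → Set (ℕ → Bool)) (n₀ : ι → ℕ)
    (he : ∀ i, ∀ x ∈ Te i, ∀ x' ∈ Te i, ∀ n, n₀ i ≤ n → Even n → (∀ k < n, x k = x' k) →
      x n = x' n)
    (ho : ∀ i, ∀ x ∈ To i, ∀ x' ∈ To i, ∀ n, n₀ i ≤ n → Odd n → (∀ k < n, x k = x' k) →
      x n = x' n)
    (hdom : ∀ H : ι × ℕ × ℕ → ℕ → ℕ, ∃ g : ℕ → ℕ, ∀ p, ∃ᶠ n in atTop, H p n < g n)
    (hc : #ι < 𝔠) : ∃ x : ℕ → Bool, ∀ i, x ∉ Te i ∧ x ∉ To i := by
  classical
  choose F hFm hF using fun i => exists_bound (Te i) (n₀ i) (he i)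
  obtain ⟨g₀, hg₀⟩ := hdom (fun p j => (fun h => F p.1 (2 * h + 4))^[j - p.2.1] p.2.2)
  set g : ℕ → ℕ := fun n => ∑ j ∈ Finset.range (n + 1), (g₀ j + 2) with hgdef
  have hgs : ∀ n, g (n + 1) = g n + (g₀ (n + 1) + 2) := fun n => by
    rw [hgdef]; simp only; rw [Finset.sum_range_succ _ (n + 1)]
  have hg2 : ∀ n, g n + 2 ≤ g (n + 1) := fun n => by rw [hgs]; omega
  have hg0 : ∀ n, g₀ n ≤ g n := by
    intro n
    have h1 : g₀ n + 2 ≤ g n :=
      Finset.single_le_sum (f := fun j => g₀ j + 2) (fun _ _ => Nat.zero_le _)
        (Finset.mem_range.2 (Nat.lt_succ_self n))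
    omega
  have hgn : ∀ n, n ≤ g n := by
    intro n
    induction n with
    | zero => exact Nat.zero_le _
    | succ n ih => have := hg2 n; omega
  -- no `pt g y` lies in an even set
  have hE : ∀ i y, pt g y ∉ Te i := by
    intro i y hy
    have key : ∀ j, n₀ i ≤ j → g j ≤ (fun h => F i (2 * h + 4))^[j - n₀ i] (g (n₀ i)) := by
      intro j hj
      induction j, hj using Nat.le_induction with
      | base => simp
      | succ j hj ih =>
        rw [show j + 1 - n₀ i = (j - n₀ i) + 1 by omega, Function.iterate_succ_apply']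
        have h1 : 2 * g (j + 1) ≤ F i (2 * g j + 4) := by
          apply hF i
          · have := hgn j; omega
          · have := hg2 j; omega
          · exact even_two_mul _
          · refine ⟨pt g y, hy, ?_, ?_⟩
            · intro n h1 h2
              rw [pt_false]
              rintro ⟨k, hk⟩
              have hk' := toNat_le (y k)
              rcases lt_or_ge j k with h | h
              · have h3 : g (j + 1) ≤ g k := by
                  rcases Nat.lt_or_ge (j + 1) k with h4 | h4
                  · have := gap hg2 h4; omega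
                  · rw [show k = j + 1 by omega]
                rcases hk with hk | hk <;> omega
              · have h3 : g k ≤ g j := by
                  rcases Nat.lt_or_ge k j with h4 | h4
                  · have := gap hg2 h4; omega
                  · rw [show k = j by omega]
                rcases hk with hk | hk <;> omega
            · rw [pt_true]; exact ⟨j + 1, Or.inl rfl⟩
        have h2 : F i (2 * g j + 4) ≤ F i
            (2 * ((fun h => F i (2 * h + 4))^[j - n₀ i] (g (n₀ i))) + 4) :=
          hFm i (by omega)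
        omega
    have h1 := hg₀ (i, n₀ i, g (n₀ i))
    obtain ⟨n, hn, hn'⟩ := (h1.and_eventually (eventually_ge_atTop (n₀ i))).exists
    have h2 := key n hn'
    have h3 := hg0 n
    simp only at hn
    omega
  -- only few `pt g y` lie in odd sets
  have hO : ∀ i, {y | pt g y ∈ To i}.Countable := by
    intro i
    have hinj : Set.InjOn (fun (y : ℕ → Bool) (k : Fin (n₀ i)) => y k) {y | pt g y ∈ To i} := by
      intro y hy y' hy' hyy
      by_contra hne
      have hex : ∃ k, y k ≠ y' k := by
        by_contra hcon; push Not at hcon; exact hne (funext hcon)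
      set k := Nat.find hex with hk
      have hk1 : y k ≠ y' k := Nat.find_spec hex
      have hk2 : ∀ j < k, y j = y' j := fun j hj => by
        by_contra h; exact Nat.find_min hex hj h
      have hkn : n₀ i ≤ k := by
        by_contra h
        push Not at h
        exact hk1 (congrFun hyy ⟨k, h⟩)
      have hval : ∀ y : ℕ → Bool, pt g y (2 * g k + 1) = true ↔ y k = false := by
        intro y
        rw [pt_true]
        constructor
        · rintro ⟨j, hj | hj⟩
          · omega
          · have h1 := toNat_le (y j)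
            have hjk : j = k := by
              rcases lt_trichotomy j k with h | h | h
              · have := gap hg2 h; omega
              · exact h
              · have := gap hg2 h; omega
            subst hjk
            have h2 : (y k).toNat = 0 := by omega
            cases hyk : y k
            · rfl
            · rw [hyk] at h2; simp at h2
        · intro h
          exact ⟨k, Or.inr (by rw [h]; simp)⟩
      have h1 := ho i _ hy _ hy' (2 * g k + 1) (by have := hgn k; omega) (by simp) (by
        intro n hn
        rw [Bool.eq_iff_iff, pt_true, pt_true]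
        have : ∀ y y' : ℕ → Bool, (∀ j < k, y j = y' j) →
            (∃ j, n = 2 * g j ∨ n = 2 * g j + 1 + 2 * (y j).toNat) →
            (∃ j, n = 2 * g j ∨ n = 2 * g j + 1 + 2 * (y' j).toNat) := by
          rintro y y' hyy ⟨j, hj | hj⟩
          · exact ⟨j, Or.inl hj⟩
          · refine ⟨j, Or.inr ?_⟩
            have hjk : j < k := by
              by_contra h
              push Not at h
              rcases Nat.lt_or_ge k j with h' | h'
              · have := gap hg2 h'; omega
              · have : j = k := by omega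
                subst this; omega
            rw [← hyy j hjk]; exact hj
        exact ⟨this y y' hk2, this y' y (fun j hj => (hk2 j hj).symm)⟩)
      rw [Bool.eq_iff_iff, hval, hval] at h1
      apply hk1
      cases h2 : y k <;> cases h3 : y' k <;> simp_all
    exact (Set.Finite.of_injOn (Set.mapsTo_univ _ _) hinj Set.finite_univ).countable
  -- counting
  obtain ⟨y, hy⟩ : ∃ y : ℕ → Bool, y ∉ ⋃ i, {y | pt g y ∈ To i} := by
    by_contra hcon
    push Not at hcon
    have h1 : (⋃ i, {y | pt g y ∈ To i}) = Set.univ := Set.eq_univ_of_forall hcon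
    have h2 : #(⋃ i, {y | pt g y ∈ To i}) ≤ #ι * ℵ₀ := by
      refine (Cardinal.mk_iUnion_le_sum_mk).trans ?_
      refine (Cardinal.sum_le_sum _ (fun _ => ℵ₀) fun i => ?_).trans ?_
      · exact Cardinal.le_aleph0_iff_set_countable.2 (hO i)
      · simp
    rw [h1, Cardinal.mk_univ] at h2
    have h3 : #(ℕ → Bool) = 𝔠 := by simp
    rw [h3] at h2
    exact absurd h2 (not_le.2 (Cardinal.mul_lt_of_lt Cardinal.aleph0_le_continuum hc
      Cardinal.aleph0_lt_continuum))
  refine ⟨pt g y, fun i => ⟨hE i y, fun h => hy ?_⟩⟩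
  exact Set.mem_iUnion.2 ⟨i, h⟩

end Pool.Agent.Helper77.Evade
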